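import Pool.Agent.Helper92.MM.Defs

/-!
# MM M4: expansion of `Yq` over the pairs of tuples
-/

open MeasureTheory Real Set Filter Topology

set_option autoImplicit false

namespace Pool.Agent.Helper77.MM

open Pool.Agent.Helper22.AE
open Pool.Agent.Helper22.AC (cntc)
open Pool.Agent.Helper92.GC (dt sqa)
open Pool.Agent.Helper60.AD
open Pool.Agent.Helper92.MM

lemma ee_sum {ι : Type*} (s : Finset ι) (f : ι → ℝ) : ee (∑ i ∈ s, f i) = ∏ i ∈ s, ee (f i) := by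
  classical
  induction s using Finset.induction_on with
  | empty => simp [ee_zero]
  | insert a s ha ih => rw [Finset.sum_insert ha, Finset.prod_insert ha, ee_add, ih]

/-- the coefficient of a tuple -/
noncomputable def cc {J : ℕ} (b : ℤ × ℤ → ℂ) (k : Fin J → ℤ × ℤ) : ℂ := ∏ t, b (k t)

lemma cc_le {J : ℕ} {b : ℤ × ℤ → ℂ} (hb : ∀ k, ‖b k‖ ≤ 1) (k : Fin J → ℤ × ℤ) : ‖cc b k‖ ≤ 1 := by
  unfold cc
  rw [norm_prod]
  exact Finset.prod_le_one (fun _ _ => norm_nonneg _) fun _ _ => hb _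

lemma co_eq {J : ℕ} (h : ℝ → ℝ) (A : Fin J → Finset (ℤ × ℤ)) (b : ℤ × ℤ → ℂ) (R α : ℝ) (m : ℤ × ℤ) :
    co h A (fun _ => b) R α m = ∑ k ∈ (Fintype.piFinset A).filter (fun k => ∑ t, k t = m),
      cc b k * ee (-(R * ∑ t, nk (k t) * gph h (k t) α)) := by
  unfold co cc
  refine Finset.sum_congr rfl fun k _ => ?_
  rw [Finset.prod_mul_distrib, Finset.mul_sum, ← Finset.sum_neg_distrib, ee_sum]

/-- the terms of the expansion -/
lemma sq_eq {J : ℕ} (h : ℝ → ℝ) (b : ℤ × ℤ → ℂ) (R α : ℝ) (F : Finset (Fin J → ℤ × ℤ)) :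
    ((‖∑ k ∈ F, cc b k * ee (-(R * ∑ t, nk (k t) * gph h (k t) α))‖ ^ 2 : ℝ) : ℂ) =
      ∑ k ∈ F, ∑ k' ∈ F, cc b k * (starRingEnd ℂ) (cc b k') * ee (-(R * Ph h k k' α)) := by
  rw [Complex.ofReal_pow, ← Complex.mul_conj', map_sum, Finset.sum_mul_sum]
  refine Finset.sum_congr rfl fun k _ => Finset.sum_congr rfl fun k' _ => ?_
  rw [map_mul, ← ee_neg, neg_neg, mul_mul_mul_comm, ← ee_add]
  congr 2
  unfold Ph
  ring

lemma Yq_eq {J : ℕ} (h : ℝ → ℝ) (A : Fin J → Finset (ℤ × ℤ)) (b : ℤ × ℤ → ℂ) (R α : ℝ) :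
    ((Yq h A (fun _ => b) R α : ℝ) : ℂ) = ∑ k ∈ Fintype.piFinset A,
      ∑ k' ∈ (Fintype.piFinset A).filter (fun k' => ∑ t, k' t = ∑ t, k t),
        cc b k * (starRingEnd ℂ) (cc b k') * ee (-(R * Ph h k k' α)) := by
  unfold Yq
  push_cast
  have h1 : ∀ m ∈ fq A, ((‖co h A (fun _ => b) R α m‖ : ℂ)) ^ 2 =
      ∑ k ∈ (Fintype.piFinset A).filter (fun k => ∑ t, k t = m),
        ∑ k' ∈ (Fintype.piFinset A).filter (fun k' => ∑ t, k' t = ∑ t, k t),
          cc b k * (starRingEnd ℂ) (cc b k') * ee (-(R * Ph h k k' α)) := by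
    intro m _
    rw [co_eq]
    have h2 := sq_eq h b R α ((Fintype.piFinset A).filter (fun k => ∑ t, k t = m))
    push_cast at h2
    rw [h2]
    refine Finset.sum_congr rfl fun k hk => ?_
    rw [(Finset.mem_filter.1 hk).2]
  rw [Finset.sum_congr rfl h1]
  exact Finset.sum_fiberwise_of_maps_to (fun k hk => Finset.mem_image_of_mem _ hk) _

/-- expansion of `Yq` over the pairs of tuples -/
theorem Yq_pairs {J : ℕ} (h : ℝ → ℝ) (A : Fin J → Finset (ℤ × ℤ)) (b : ℤ × ℤ → ℂ) (hb : ∀ k, ‖b k‖ ≤ 1)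
    (a : ℝ) {ℓ : ℝ} (hℓ : 0 ≤ ℓ) (α : ℝ) :
    ∫ R in Icc a (a + ℓ), Yq h A (fun _ => b) R α ≤ ℓ * ∏ t, ((A t).card : ℝ) +
      ∑ k ∈ Fintype.piFinset A, ∑ k' ∈ (Fintype.piFinset A).filter (fun k' => k' ≠ k),
        ‖∫ R in Icc a (a + ℓ), ee (-(R * Ph h k k' α))‖ := by
  classical
  have hint : ∀ k k' : Fin J → ℤ × ℤ, IntegrableOn (fun R : ℝ => ee (-(R * Ph h k k' α))) (Icc a (a + ℓ)) := by
    intro k k'
    refine ContinuousOn.integrableOn_Icc (Continuous.continuousOn ?_)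
    exact ee_cont.comp (by fun_prop)
  have h1 : ((∫ R in Icc a (a + ℓ), Yq h A (fun _ => b) R α : ℝ) : ℂ) = ∑ k ∈ Fintype.piFinset A,
      ∑ k' ∈ (Fintype.piFinset A).filter (fun k' => ∑ t, k' t = ∑ t, k t),
        cc b k * (starRingEnd ℂ) (cc b k') * ∫ R in Icc a (a + ℓ), ee (-(R * Ph h k k' α)) := by
    rw [← integral_complex_ofReal]
    simp only [Yq_eq]
    rw [integral_finsetSum _ fun k _ => integrable_finsetSum _ fun k' _ => (hint k k').const_mul _]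
    refine Finset.sum_congr rfl fun k _ => ?_
    rw [integral_finsetSum _ fun k' _ => (hint k k').const_mul _]
    refine Finset.sum_congr rfl fun k' _ => ?_
    rw [integral_const_mul]
  have h2 : ∫ R in Icc a (a + ℓ), Yq h A (fun _ => b) R α ≤ ‖((∫ R in Icc a (a + ℓ), Yq h A (fun _ => b) R α : ℝ) : ℂ)‖ := by
    rw [Complex.norm_real]
    exact le_abs_self _
  refine h2.trans ?_
  rw [h1]
  have h3 : ∀ k k' : Fin J → ℤ × ℤ,
      ‖cc b k * (starRingEnd ℂ) (cc b k') * ∫ R in Icc a (a + ℓ), ee (-(R * Ph h k k' α))‖ ≤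
        ‖∫ R in Icc a (a + ℓ), ee (-(R * Ph h k k' α))‖ := by
    intro k k'
    rw [norm_mul, norm_mul, RCLike.norm_conj]
    have h4 := cc_le hb k
    have h5 := cc_le hb k'
    have h6 : ‖cc b k‖ * ‖cc b k'‖ ≤ 1 := mul_le_one₀ h4 (norm_nonneg _) h5
    exact mul_le_of_le_one_left (norm_nonneg _) h6
  have h4 : ∀ k ∈ Fintype.piFinset A, ‖∑ k' ∈ (Fintype.piFinset A).filter (fun k' => ∑ t, k' t = ∑ t, k t),
      cc b k * (starRingEnd ℂ) (cc b k') * ∫ R in Icc a (a + ℓ), ee (-(R * Ph h k k' α))‖ ≤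
        ℓ + ∑ k' ∈ (Fintype.piFinset A).filter (fun k' => k' ≠ k), ‖∫ R in Icc a (a + ℓ), ee (-(R * Ph h k k' α))‖ := by
    intro k hk
    have h5 : ‖∫ R in Icc a (a + ℓ), ee (-(R * Ph h k k α))‖ = ℓ := by
      have h6 : Ph h k k α = 0 := sub_self _
      simp only [h6, mul_zero, neg_zero, ee_zero]
      simp [hℓ]
    calc ‖∑ k' ∈ (Fintype.piFinset A).filter (fun k' => ∑ t, k' t = ∑ t, k t),
          cc b k * (starRingEnd ℂ) (cc b k') * ∫ R in Icc a (a + ℓ), ee (-(R * Ph h k k' α))‖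
        ≤ ∑ k' ∈ (Fintype.piFinset A).filter (fun k' => ∑ t, k' t = ∑ t, k t),
            ‖∫ R in Icc a (a + ℓ), ee (-(R * Ph h k k' α))‖ :=
          (norm_sum_le _ _).trans (Finset.sum_le_sum fun k' _ => h3 k k')
      _ ≤ ∑ k' ∈ Fintype.piFinset A, ‖∫ R in Icc a (a + ℓ), ee (-(R * Ph h k k' α))‖ :=
          Finset.sum_le_sum_of_subset_of_nonneg (Finset.filter_subset _ _) fun _ _ _ => norm_nonneg _
      _ = ℓ + ∑ k' ∈ (Fintype.piFinset A).filter (fun k' => k' ≠ k), ‖∫ R in Icc a (a + ℓ), ee (-(R * Ph h k k' α))‖ := by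
          rw [Finset.filter_ne', ← Finset.add_sum_erase _ _ hk, h5]
  refine (norm_sum_le _ _).trans ((Finset.sum_le_sum h4).trans (le_of_eq ?_))
  rw [Finset.sum_add_distrib, Finset.sum_const, Fintype.card_piFinset, nsmul_eq_mul]
  push_cast
  ring

end Pool.Agent.Helper77.MM
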